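import Mathlib

/-!
Gordan's theorem for finitely generated abelian groups (copied from
`Pool.Agent.Helper6.LVarWein`).
-/

set_option autoImplicit false
set_option linter.unusedSectionVars false

namespace Pool.Agent.Y350.GS

universe u

theorem exists_functional {A : Type u} [AddCommGroup A] [Module.Finite ℤ A] (s : A)
    (hs : ∀ k : ℕ, 0 < k → k • s ≠ 0) : ∃ g : A →+ ℤ, 0 < g s := by
  set T := Submodule.torsion ℤ A with hT
  have hne : (Submodule.Quotient.mk s : A ⧸ T) ≠ 0 := by
    intro h
    rw [Submodule.Quotient.mk_eq_zero, hT, Submodule.mem_torsion_iff] at h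
    obtain ⟨⟨a, ha⟩, h⟩ := h
    have ha0 : a ≠ 0 := nonZeroDivisors.ne_zero ha
    have h' : a • s = 0 := h
    have h2 : (a.natAbs : ℤ) • s = 0 := by
      rcases Int.natAbs_eq a with h3 | h3
      · rw [← h3]; exact h'
      · have h4 : (a.natAbs : ℤ) = -a := by omega
        rw [h4, neg_smul, h', neg_zero]
    rw [natCast_zsmul] at h2
    exact hs _ (Int.natAbs_pos.mpr ha0) h2
  have hdual : ¬ ∀ f : Module.Dual ℤ (A ⧸ T), f (Submodule.Quotient.mk s) = 0 := by
    intro h
    exact hne ((Module.forall_dual_apply_eq_zero_iff ℤ _).mp h)
  push Not at hdual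
  obtain ⟨f, hf⟩ := hdual
  set g : A →+ ℤ := (f.comp T.mkQ).toAddMonoidHom with hg
  have hgs : g s ≠ 0 := hf
  rcases lt_or_gt_of_ne hgs with h | h
  · exact ⟨-g, by rw [AddMonoidHom.neg_apply]; omega⟩
  · exact ⟨g, h⟩

theorem gordan {ι : Type*} [DecidableEq ι] (T : Finset ι) :
    ∀ (A : Type u) [AddCommGroup A] [Module.Finite ℤ A] (s : ι → A),
      (∃ ψ : A →+ ℤ, ∀ i ∈ T, 0 < ψ (s i)) ∨
      (∃ c : ι → ℕ, (∃ i ∈ T, c i ≠ 0) ∧ ∑ i ∈ T, c i • s i = 0) := by
  induction T using Finset.induction_on with
  | empty => intro A _ _ s; left; exact ⟨0, by simp⟩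
  | insert a T ha ih =>
    intro A _ _ s
    by_cases htor : ∃ k : ℕ, 0 < k ∧ k • s a = 0
    · obtain ⟨k, hk, hk'⟩ := htor
      right
      refine ⟨fun i => if i = a then k else 0, ⟨a, Finset.mem_insert_self _ _, by
        simp only [if_true]; omega⟩, ?_⟩
      rw [Finset.sum_insert ha]
      beta_reduce
      rw [if_pos rfl, hk', zero_add]
      apply Finset.sum_eq_zero
      intro i hi
      rw [if_neg (by rintro rfl; exact ha hi), zero_smul]
    · push Not at htor
      obtain ⟨g, hg⟩ := exists_functional (s a) htor
      let S : Submodule ℤ A := Submodule.span ℤ {s a}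
      rcases ih (A ⧸ S) (fun i => Submodule.Quotient.mk (s i)) with ⟨ψ', hψ'⟩ | ⟨c, hc, hsum⟩
      · left
        set M : ℤ := 1 + ∑ i ∈ T, |g (s i)| with hM
        have hMpos : ∀ i ∈ T, |g (s i)| < M := by
          intro i hi
          have := Finset.single_le_sum (f := fun i => |g (s i)|) (fun i _ => abs_nonneg _) hi
          omega
        have hM0 : 0 < M := by
          have : 0 ≤ ∑ i ∈ T, |g (s i)| := Finset.sum_nonneg fun i _ => abs_nonneg _
          omega
        refine ⟨M • (ψ'.comp S.mkQ.toAddMonoidHom) + g, ?_⟩
        intro i hi
        rcases Finset.mem_insert.mp hi with rfl | hi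
        · have h0 : ψ' (S.mkQ (s i)) = 0 := by
            have : S.mkQ (s i) = 0 := by
              rw [Submodule.mkQ_apply, Submodule.Quotient.mk_eq_zero]
              exact Submodule.mem_span_singleton_self _
            rw [this, map_zero]
          change 0 < M • ψ' (S.mkQ (s i)) + g (s i)
          rw [h0, smul_zero, zero_add]
          exact hg
        · have h1 : 0 < ψ' (S.mkQ (s i)) := hψ' i hi
          change 0 < M • ψ' (S.mkQ (s i)) + g (s i)
          have h2 := hMpos i hi
          have h3 := neg_abs_le (g (s i))
          rw [smul_eq_mul]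
          have h4 : M * 1 ≤ M * ψ' (S.mkQ (s i)) := mul_le_mul_of_nonneg_left (by omega) hM0.le
          linarith
      · have h1 : ∑ i ∈ T, c i • s i ∈ S := by
          rw [← Submodule.Quotient.mk_eq_zero]
          rw [← Submodule.mkQ_apply, map_sum]
          rw [← hsum]
          apply Finset.sum_congr rfl
          intro i _
          rw [map_nsmul, Submodule.mkQ_apply]
        obtain ⟨μ, hμ⟩ := Submodule.mem_span_singleton.mp h1
        rcases le_or_gt μ 0 with hμ0 | hμ0
        · right
          refine ⟨fun i => if i = a then μ.natAbs else c i, ?_, ?_⟩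
          · obtain ⟨i, hi, hci⟩ := hc
            refine ⟨i, Finset.mem_insert_of_mem hi, ?_⟩
            beta_reduce
            rw [if_neg (by rintro rfl; exact ha hi)]
            exact hci
          · rw [Finset.sum_insert ha]
            beta_reduce
            rw [if_pos rfl]
            have h2 : ∑ x ∈ T, (if x = a then μ.natAbs else c x) • s x = μ • s a := by
              rw [hμ]
              apply Finset.sum_congr rfl
              intro i hi
              rw [if_neg (by rintro rfl; exact ha hi)]
            rw [h2, ← natCast_zsmul, ← add_zsmul]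
            have : (μ.natAbs : ℤ) + μ = 0 := by omega
            rw [this, zero_zsmul]
        · rcases ih A s with ⟨ψ, hψ⟩ | ⟨c', hc', hsum'⟩
          · left
            refine ⟨ψ, ?_⟩
            intro i hi
            rcases Finset.mem_insert.mp hi with rfl | hi
            · have h2 := congrArg ψ hμ
              rw [map_zsmul, map_sum, smul_eq_mul] at h2
              have h3 : 0 < ∑ j ∈ T, ψ (c j • s j) := by
                apply Finset.sum_pos'
                · intro j hj
                  rw [map_nsmul, nsmul_eq_mul]
                  exact mul_nonneg (by positivity) (hψ j hj).le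
                · obtain ⟨j, hj, hcj⟩ := hc
                  refine ⟨j, hj, ?_⟩
                  rw [map_nsmul, nsmul_eq_mul]
                  exact mul_pos (by positivity) (hψ j hj)
              rw [← h2] at h3
              exact (mul_pos_iff_of_pos_left hμ0).mp h3
            · exact hψ i hi
          · right
            refine ⟨fun i => if i = a then 0 else c' i, ?_, ?_⟩
            · obtain ⟨i, hi, hci⟩ := hc'
              refine ⟨i, Finset.mem_insert_of_mem hi, ?_⟩
              beta_reduce
              rw [if_neg (by rintro rfl; exact ha hi)]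
              exact hci
            · rw [Finset.sum_insert ha]
              beta_reduce
              rw [if_pos rfl, zero_smul, zero_add]
              rw [← hsum']
              apply Finset.sum_congr rfl
              intro i hi
              rw [if_neg (by rintro rfl; exact ha hi)]

end Pool.Agent.Y350.GS
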