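import Pool.Agent.Y234.GS.StmC
import Pool.Agent.Y350.GS.Gor

/-!
Project GS, job WT: Groebner data with weights from a monomial order.
-/

set_option autoImplicit false
set_option linter.unusedSectionVars false

namespace Pool.Agent.Y350.GS

open MvPolynomial
open Pool.Agent.Y234.GS

universe v

section

variable {K : Type} [Field K] {n : ℕ} {Δ : Finset (Finset (Fin n))}
  {I : Ideal (MvPolynomial (Fin n) K)} {ord : MonomialOrder.{0, v} (Fin n)}

/-- extension of exponents by zero -/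
noncomputable def ext (Δ : Finset (Finset (Fin n))) (b : Vert Δ → ℕ) : Fin n →₀ ℕ :=
  Finsupp.equivFunOnFinite.symm fun j => if h : ({j} : Finset (Fin n)) ∈ Δ then b ⟨j, h⟩ else 0

lemma ext_apply (b : Vert Δ → ℕ) (i : Vert Δ) : ext Δ b i.1 = b i := by
  unfold ext
  rw [Finsupp.equivFunOnFinite_symm_apply_apply, dif_pos i.2]

lemma ext_apply_not (b : Vert Δ → ℕ) {j : Fin n} (h : ({j} : Finset (Fin n)) ∉ Δ) :
    ext Δ b j = 0 := by
  unfold ext
  rw [Finsupp.equivFunOnFinite_symm_apply_apply, dif_neg h]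

lemma ext_add (b c : Vert Δ → ℕ) : ext Δ (b + c) = ext Δ b + ext Δ c := by
  ext j
  by_cases h : ({j} : Finset (Fin n)) ∈ Δ
  · have := ext_apply (b + c) ⟨j, h⟩
    have h1 := ext_apply b ⟨j, h⟩
    have h2 := ext_apply c ⟨j, h⟩
    simp only at this h1 h2
    rw [this, Finsupp.add_apply, h1, h2]; rfl
  · rw [Finsupp.add_apply, ext_apply_not _ h, ext_apply_not _ h, ext_apply_not _ h]

lemma ext_inj {b c : Vert Δ → ℕ} (h : ext Δ b = ext Δ c) : b = c := by
  funext i
  rw [← ext_apply b i, h, ext_apply]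

lemma ext_supp (b : Vert Δ → ℕ) :
    (ext Δ b).support = (supp b).map (Function.Embedding.subtype _) := by
  ext j
  rw [Finsupp.mem_support_iff, Finset.mem_map]
  constructor
  · intro h
    by_cases hj : ({j} : Finset (Fin n)) ∈ Δ
    · refine ⟨⟨j, hj⟩, ?_, rfl⟩
      have := ext_apply b ⟨j, hj⟩
      simp only at this
      unfold supp
      rw [Finset.mem_filter]
      exact ⟨Finset.mem_univ _, by rwa [this] at h⟩
    · exact absurd (ext_apply_not b hj) h
  · rintro ⟨i, hi, rfl⟩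
    unfold supp at hi
    rw [Finset.mem_filter] at hi
    show ext Δ b i.1 ≠ 0
    rw [ext_apply]
    exact hi.2

lemma std_iff (b : Vert Δ → ℕ) : supp b ∈ subc Δ ↔ (ext Δ b).support ∈ Δ := by
  rw [ext_supp]
  unfold subc
  rw [Finset.mem_filter]
  simp

lemma sum_vert (f : Fin n → ℕ) (hf : ∀ j, ({j} : Finset (Fin n)) ∉ Δ → f j = 0) :
    ∑ j, f j = ∑ i : Vert Δ, f i.1 := by
  rw [← Fintype.sum_subtype_add_sum_subtype (fun j => ({j} : Finset (Fin n)) ∈ Δ) f]
  have h : ∑ i : {x // ¬ ({x} : Finset (Fin n)) ∈ Δ}, f i = 0 :=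
    Finset.sum_eq_zero fun i _ => hf i.1 i.2
  rw [h, add_zero]

lemma ext_degree (b : Vert Δ → ℕ) : (ext Δ b).degree = deg b := by
  rw [Finsupp.degree_eq_sum, sum_vert (fun j => ext Δ b j) fun j hj => ext_apply_not b hj]
  unfold deg
  exact Finset.sum_congr rfl fun i _ => ext_apply b i

/-- the generators -/
noncomputable abbrev gx (I : Ideal (MvPolynomial (Fin n) K)) (Δ : Finset (Finset (Fin n))) :
    Vert Δ → MvPolynomial (Fin n) K ⧸ I :=
  fun i => Ideal.Quotient.mk I (X i.1)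

lemma mk_mon (b : Vert Δ → ℕ) :
    Ideal.Quotient.mk I (monomial (ext Δ b) 1) = mon (gx I Δ) b := by
  rw [monomial_eq, C_1, one_mul, Finsupp.prod_fintype _ _ (by simp), map_prod,
    ← Fintype.prod_subtype_mul_prod_subtype (fun j => ({j} : Finset (Fin n)) ∈ Δ)]
  have h : ∏ i : {x // ¬ ({x} : Finset (Fin n)) ∈ Δ},
      Ideal.Quotient.mk I (X i.1 ^ (ext Δ b) i.1) = 1 :=
    Finset.prod_eq_one fun i _ => by rw [ext_apply_not b i.2, pow_zero, map_one]
  rw [h, mul_one]
  unfold mon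
  refine Finset.prod_congr rfl fun i _ => ?_
  rw [map_pow]
  congr 1
  exact ext_apply b i

lemma sum_single_apply (S : Finset (Fin n)) (j : Fin n) :
    (∑ i ∈ S, Finsupp.single i 1 : Fin n →₀ ℕ) j = if j ∈ S then 1 else 0 := by
  rw [Finsupp.finsetSum_apply]
  simp [Finsupp.single_apply]

lemma sum_single_le (S : Finset (Fin n)) (b : Fin n →₀ ℕ) :
    (∑ i ∈ S, Finsupp.single i 1 : Fin n →₀ ℕ) ≤ b ↔ S ⊆ b.support := by
  constructor
  · intro h j hj
    have h1 := h j
    rw [sum_single_apply, if_pos hj] at h1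
    rw [Finsupp.mem_support_iff]
    omega
  · intro h j
    rw [sum_single_apply]
    split_ifs with hj
    · have := h hj
      rw [Finsupp.mem_support_iff] at this
      omega
    · exact Nat.zero_le _

section lead

variable (hdown : ∀ F ∈ Δ, ∀ G : Finset (Fin n), G ⊆ F → G ∈ Δ)
  (hin : Ideal.span {p : MvPolynomial (Fin n) K | ∃ f ∈ I, f ≠ 0 ∧
          p = MvPolynomial.monomial (ord.degree f) (1 : K)} =
        Ideal.span {p : MvPolynomial (Fin n) K | ∃ S : Finset (Fin n), S ∉ Δ ∧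
          p = MvPolynomial.monomial (∑ i ∈ S, Finsupp.single i 1) (1 : K)})

include hin

include hdown in
lemma lead_nonstd {f : MvPolynomial (Fin n) K} (hf : f ∈ I) (h0 : f ≠ 0) :
    (ord.degree f).support ∉ Δ := by
  intro hmem
  have h1 : (monomial (ord.degree f) (1 : K)) ∈ Ideal.span
      {p : MvPolynomial (Fin n) K | ∃ S : Finset (Fin n), S ∉ Δ ∧
          p = MvPolynomial.monomial (∑ i ∈ S, Finsupp.single i 1) (1 : K)} := by
    rw [← hin]
    exact Ideal.subset_span ⟨f, hf, h0, rfl⟩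
  have e : {p : MvPolynomial (Fin n) K | ∃ S : Finset (Fin n), S ∉ Δ ∧
          p = MvPolynomial.monomial (∑ i ∈ S, Finsupp.single i 1) (1 : K)} =
      (fun s => monomial s (1 : K)) '' {s | ∃ S : Finset (Fin n), S ∉ Δ ∧
        s = ∑ i ∈ S, Finsupp.single i 1} := by
    ext p
    constructor
    · rintro ⟨S, hS, rfl⟩; exact ⟨_, ⟨S, hS, rfl⟩, rfl⟩
    · rintro ⟨_, ⟨S, hS, rfl⟩, rfl⟩; exact ⟨S, hS, rfl⟩
  rw [e, mem_ideal_span_monomial_image] at h1
  obtain ⟨_, ⟨S, hS, rfl⟩, hle⟩ := h1 (ord.degree f) (by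
    rw [mem_support_iff, coeff_monomial, if_pos rfl]; exact one_ne_zero)
  rw [sum_single_le] at hle
  exact hS (hdown _ hmem _ hle)

lemma exists_lead {b : Fin n →₀ ℕ} (hb : b.support ∉ Δ) :
    ∃ f ∈ I, f ≠ 0 ∧ ord.degree f = b := by
  have h1 : (monomial (∑ i ∈ b.support, Finsupp.single i 1) (1 : K)) ∈ Ideal.span
      {p : MvPolynomial (Fin n) K | ∃ f ∈ I, f ≠ 0 ∧
          p = MvPolynomial.monomial (ord.degree f) (1 : K)} := by
    rw [hin]
    exact Ideal.subset_span ⟨b.support, hb, rfl⟩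
  have e : {p : MvPolynomial (Fin n) K | ∃ f ∈ I, f ≠ 0 ∧
          p = MvPolynomial.monomial (ord.degree f) (1 : K)} =
      (fun s => monomial s (1 : K)) '' {s | ∃ f ∈ I, f ≠ 0 ∧ s = ord.degree f} := by
    ext p
    constructor
    · rintro ⟨f, hf, hf0, rfl⟩; exact ⟨_, ⟨f, hf, hf0, rfl⟩, rfl⟩
    · rintro ⟨_, ⟨f, hf, hf0, rfl⟩, rfl⟩; exact ⟨f, hf, hf0, rfl⟩
  rw [e, mem_ideal_span_monomial_image] at h1
  obtain ⟨_, ⟨f, hf, hf0, rfl⟩, hle⟩ := h1 (∑ i ∈ b.support, Finsupp.single i 1) (by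
    rw [mem_support_iff, coeff_monomial, if_pos rfl]; exact one_ne_zero)
  have hle2 : ord.degree f ≤ b := hle.trans ((sum_single_le _ _).mpr (Finset.Subset.refl _))
  have hm : (monomial (b - ord.degree f) (1 : K)) ≠ 0 := by
    rw [Ne, monomial_eq_zero]; exact one_ne_zero
  refine ⟨monomial (b - ord.degree f) 1 * f, I.mul_mem_left _ hf, mul_ne_zero hm hf0, ?_⟩
  classical
  rw [MonomialOrder.degree_mul hm hf0, MonomialOrder.degree_monomial, if_neg one_ne_zero]
  exact tsub_add_cancel_of_le hle2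

lemma exists_hlead (hhom : ∀ f ∈ I, ∀ d : ℕ, homogeneousComponent d f ∈ I)
    {b : Fin n →₀ ℕ} (hb : b.support ∉ Δ) :
    ∃ f ∈ I, coeff b f ≠ 0 ∧
      ∀ c ∈ f.support, c ≠ b → c.degree = b.degree ∧ ord.toSyn c < ord.toSyn b := by
  obtain ⟨f, hf, hf0, hfb⟩ := exists_lead hin hb
  refine ⟨homogeneousComponent b.degree f, hhom f hf _, ?_, ?_⟩
  · rw [coeff_homogeneousComponent, if_pos rfl, ← hfb]
    exact MonomialOrder.coeff_degree_ne_zero_iff.mpr hf0
  · intro c hc hcb
    rw [support_homogeneousComponent, Finset.mem_filter] at hc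
    refine ⟨hc.2, ?_⟩
    have h1 := ord.le_degree hc.1
    rw [hfb] at h1
    exact lt_of_le_of_ne h1 fun h => hcb (ord.toSyn.injective h)

lemma reduce (hhom : ∀ f ∈ I, ∀ d : ℕ, homogeneousComponent d f ∈ I) :
    ∀ (s : ord.syn) (b : Fin n →₀ ℕ), ord.toSyn b = s → b.support ∉ Δ →
    Ideal.Quotient.mk I (monomial b (1 : K)) ∈ Submodule.span K
      ((fun c => Ideal.Quotient.mk I (monomial c (1 : K))) ''
        {c | c.support ∈ Δ ∧ c.degree = b.degree ∧ ord.toSyn c < ord.toSyn b}) := by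
  intro s
  induction s using WellFoundedLT.induction with
  | ind s ih =>
    intro b hbs hb
    obtain ⟨f, hf, hfc, hfr⟩ := exists_hlead hin hhom hb
    have h1 : Ideal.Quotient.mk I f = 0 := Ideal.Quotient.eq_zero_iff_mem.mpr hf
    have h2 : Ideal.Quotient.mk I f = ∑ c ∈ f.support, (coeff c f) •
        Ideal.Quotient.mk I (monomial c (1 : K)) := by
      conv_lhs => rw [← support_sum_monomial_coeff f]
      rw [map_sum]
      refine Finset.sum_congr rfl fun c _ => ?_
      have e1 : monomial c (coeff c f) = (coeff c f) • monomial c (1 : K) := by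
        rw [smul_monomial, smul_eq_mul, mul_one]
      rw [e1]
      exact map_smul (Ideal.Quotient.mkₐ K I) (coeff c f) _
    rw [h1, ← Finset.add_sum_erase _ _ (mem_support_iff.mpr hfc)] at h2
    have h3 : Ideal.Quotient.mk I (monomial b (1 : K)) = (-(coeff b f)⁻¹) •
        ∑ c ∈ f.support.erase b, (coeff c f) • Ideal.Quotient.mk I (monomial c (1 : K)) := by
      have h4 := eq_neg_of_add_eq_zero_left h2.symm
      have h5 := congrArg (fun z => (coeff b f)⁻¹ • z) h4
      beta_reduce at h5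
      rw [smul_smul, inv_mul_cancel₀ hfc, one_smul] at h5
      rw [h5, smul_neg, neg_smul]
    rw [h3]
    apply Submodule.smul_mem
    apply Submodule.sum_mem
    intro c hc
    apply Submodule.smul_mem
    obtain ⟨hcb, hcs⟩ := Finset.mem_erase.mp hc
    obtain ⟨hdeg, hlt⟩ := hfr c hcs hcb
    by_cases hstd : c.support ∈ Δ
    · exact Submodule.subset_span ⟨c, ⟨hstd, hdeg, hlt⟩, rfl⟩
    · have h6 := ih (ord.toSyn c) (hbs ▸ hlt) c rfl hstd
      refine Submodule.span_mono (Set.image_mono ?_) h6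
      rintro c' ⟨h7, h8, h9⟩
      exact ⟨h7, h8.trans hdeg, h9.trans hlt⟩

end lead

/-- restriction of exponents -/
def res (Δ : Finset (Finset (Fin n))) (c : Fin n →₀ ℕ) : Vert Δ → ℕ := fun i => c i.1

lemma ext_res (hdown : ∀ F ∈ Δ, ∀ G : Finset (Fin n), G ⊆ F → G ∈ Δ) {c : Fin n →₀ ℕ}
    (hc : c.support ∈ Δ) : ext Δ (res Δ c) = c := by
  ext j
  by_cases h : ({j} : Finset (Fin n)) ∈ Δ
  · exact ext_apply (res Δ c) ⟨j, h⟩
  · rw [ext_apply_not _ h]
    by_contra h1
    apply h
    apply hdown _ hc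
    intro k hk
    rw [Finset.mem_singleton] at hk
    subst hk
    rw [Finsupp.mem_support_iff]
    exact fun h2 => h1 h2.symm

section main

variable (hdown : ∀ F ∈ Δ, ∀ G : Finset (Fin n), G ⊆ F → G ∈ Δ)
  (hhom : ∀ f ∈ I, ∀ d : ℕ, homogeneousComponent d f ∈ I)
  (hin : Ideal.span {p : MvPolynomial (Fin n) K | ∃ f ∈ I, f ≠ 0 ∧
          p = MvPolynomial.monomial (ord.degree f) (1 : K)} =
        Ideal.span {p : MvPolynomial (Fin n) K | ∃ S : Finset (Fin n), S ∉ Δ ∧
          p = MvPolynomial.monomial (∑ i ∈ S, Finsupp.single i 1) (1 : K)})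

include hdown hhom hin

lemma reduce_std {c0 : Fin n →₀ ℕ} (hc0 : c0.support ∉ Δ) :
    Ideal.Quotient.mk I (monomial c0 (1 : K)) ∈ Submodule.span K
      (mon (gx I Δ) '' {b | supp b ∈ subc Δ ∧ deg b = c0.degree ∧
        ord.toSyn (ext Δ b) < ord.toSyn c0}) := by
  refine Submodule.span_mono ?_ (reduce hin hhom _ c0 rfl hc0)
  rintro _ ⟨c, ⟨h1, h2, h3⟩, rfl⟩
  refine ⟨res Δ c, ⟨?_, ?_, ?_⟩, ?_⟩
  · rw [std_iff, ext_res hdown h1]; exact h1
  · rw [← ext_degree, ext_res hdown h1]; exact h2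
  · rw [ext_res hdown h1]; exact h3
  · rw [← mk_mon, ext_res hdown h1]

lemma red0 {b : Vert Δ → ℕ} (hb : supp b ∉ subc Δ) :
    ∃ T : Finset (Vert Δ → ℕ), (∀ b' ∈ T, supp b' ∈ subc Δ ∧ deg b' = deg b ∧
        ord.toSyn (ext Δ b') < ord.toSyn (ext Δ b)) ∧
      mon (gx I Δ) b ∈ Submodule.span K (mon (gx I Δ) '' (T : Set (Vert Δ → ℕ))) := by
  have h1 : (ext Δ b).support ∉ Δ := by rwa [← std_iff]
  have h2 := reduce_std hdown hhom hin h1
  rw [mk_mon, Finsupp.mem_span_image_iff_linearCombination] at h2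
  obtain ⟨l, hl, hl2⟩ := h2
  refine ⟨l.support, ?_, ?_⟩
  · intro b' hb'
    rw [Finsupp.mem_supported] at hl
    have := hl hb'
    rw [← ext_degree b]
    exact this
  · rw [Finsupp.mem_span_image_iff_linearCombination]
    exact ⟨l, by rw [Finsupp.mem_supported], hl2⟩

lemma gen_top : Algebra.adjoin K (Set.range (gx I Δ)) = ⊤ := by
  have hmon : ∀ b : Vert Δ → ℕ, mon (gx I Δ) b ∈ Algebra.adjoin K (Set.range (gx I Δ)) := by
    intro b
    unfold mon
    exact Subalgebra.prod_mem _ fun i _ => Subalgebra.pow_mem _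
      (Algebra.subset_adjoin (Set.mem_range_self i)) _
  have hX : ∀ j, Ideal.Quotient.mk I (X j) ∈ Algebra.adjoin K (Set.range (gx I Δ)) := by
    intro j
    by_cases hj : ({j} : Finset (Fin n)) ∈ Δ
    · exact Algebra.subset_adjoin ⟨⟨j, hj⟩, rfl⟩
    · have h1 : (Finsupp.single j 1 : Fin n →₀ ℕ).support ∉ Δ := by
        rw [Finsupp.support_single _ one_ne_zero]; exact hj
      have h2 := reduce_std hdown hhom hin h1
      have h3 : Submodule.span K
          (mon (gx I Δ) '' {b | supp b ∈ subc Δ ∧ deg b = (Finsupp.single j 1).degree ∧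
            ord.toSyn (ext Δ b) < ord.toSyn (Finsupp.single j 1)}) ≤
          Subalgebra.toSubmodule (Algebra.adjoin K (Set.range (gx I Δ))) := by
        rw [Submodule.span_le]
        rintro _ ⟨b, _, rfl⟩
        exact hmon b
      exact h3 h2
  rw [eq_top_iff]
  rintro a -
  obtain ⟨f, rfl⟩ := Ideal.Quotient.mk_surjective a
  have h4 : Ideal.Quotient.mk I f = aeval (fun j => Ideal.Quotient.mk I (X j)) f := by
    have : (Ideal.Quotient.mkₐ K I) = aeval (fun j => Ideal.Quotient.mk I (X j)) := by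
      apply MvPolynomial.algHom_ext
      intro j
      rw [aeval_X]
      rfl
    exact congrArg (fun φ : MvPolynomial (Fin n) K →ₐ[K] _ => φ f) this
  rw [h4]
  have h5 : aeval (fun j => Ideal.Quotient.mk I (X j)) f ∈
      Algebra.adjoin K (Set.range fun j => Ideal.Quotient.mk I (X j)) := by
    rw [Algebra.adjoin_range_eq_range_aeval]
    exact ⟨f, rfl⟩
  refine Algebra.adjoin_le ?_ h5
  rintro _ ⟨j, rfl⟩
  exact hX j

omit hdown hin in
lemma rmod_hom : ∀ G : MvPolynomial (Vert Δ) K, aeval (gx I Δ) G = 0 →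
    ∀ d : ℕ, aeval (gx I Δ) (homogeneousComponent d G) = 0 := by
  intro G hG d
  have key : ∀ G : MvPolynomial (Vert Δ) K, aeval (gx I Δ) G =
      Ideal.Quotient.mk I (rename (fun i : Vert Δ => i.1) G) := by
    intro G
    have : (aeval (gx I Δ) : MvPolynomial (Vert Δ) K →ₐ[K] _) =
        (Ideal.Quotient.mkₐ K I).comp (rename (fun i : Vert Δ => i.1)) := by
      apply MvPolynomial.algHom_ext
      intro j
      rw [aeval_X, AlgHom.comp_apply, rename_X]
      rfl
    exact congrArg (fun φ : MvPolynomial (Vert Δ) K →ₐ[K] _ => φ G) this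
  rw [key, Ideal.Quotient.eq_zero_iff_mem] at hG ⊢
  rw [rename_homogeneousComponent]
  exact hhom _ hG d

omit hhom in
lemma indep (m : ℕ) : LinearIndependent K
    (fun b : {b : Vert Δ → ℕ // deg b = m ∧ supp b ∈ subc Δ} => mon (gx I Δ) b.1) := by
  rw [linearIndependent_iff']
  intro s g hg
  set f : MvPolynomial (Fin n) K := ∑ b ∈ s, monomial (ext Δ b.1) (g b) with hf
  have hfI : f ∈ I := by
    rw [← Ideal.Quotient.eq_zero_iff_mem, hf, map_sum, ← hg]
    refine Finset.sum_congr rfl fun b _ => ?_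
    have e1 : monomial (ext Δ b.1) (g b) = (g b) • monomial (ext Δ b.1) (1 : K) := by
      rw [smul_monomial, smul_eq_mul, mul_one]
    rw [e1, ← mk_mon]
    exact map_smul (Ideal.Quotient.mkₐ K I) (g b) _
  have hcoef : ∀ c, coeff c f = ∑ b ∈ s, if ext Δ b.1 = c then g b else 0 := by
    intro c
    rw [hf, coeff_sum]
    refine Finset.sum_congr rfl fun b _ => ?_
    rw [coeff_monomial]
  have hf0 : f = 0 := by
    by_contra h0
    have h1 := lead_nonstd hdown hin hfI h0
    have h2 : coeff (ord.degree f) f ≠ 0 := MonomialOrder.coeff_degree_ne_zero_iff.mpr h0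
    rw [hcoef] at h2
    obtain ⟨b, hb, hb2⟩ := Finset.exists_ne_zero_of_sum_ne_zero h2
    have h3 : ext Δ b.1 = ord.degree f := by
      by_contra h4
      exact hb2 (if_neg h4)
    rw [← h3, ← std_iff] at h1
    exact h1 b.2.2
  intro b hb
  have h1 := hcoef (ext Δ b.1)
  rw [hf0, coeff_zero, Finset.sum_eq_single b] at h1
  · rw [if_pos rfl] at h1
    exact h1.symm
  · intro b' _ hne
    rw [if_neg]
    intro h
    exact hne (Subtype.ext (ext_inj h))
  · intro h; exact absurd hb h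

end main

/-! ### Weights -/

/-- differences of exponents that are positive for the order -/
def Pos (Δ : Finset (Finset (Fin n))) (ord : MonomialOrder.{0, v} (Fin n)) (δ : Vert Δ → ℤ) :
    Prop :=
  ∃ a b : Vert Δ → ℕ, (∀ i, δ i = (a i : ℤ) - b i) ∧
    ord.toSyn (ext Δ b) < ord.toSyn (ext Δ a)

lemma pos_add {δ δ' : Vert Δ → ℤ} (h : Pos Δ ord δ) (h' : Pos Δ ord δ') :
    Pos Δ ord (δ + δ') := by
  obtain ⟨a, b, h1, h2⟩ := h
  obtain ⟨a', b', h1', h2'⟩ := h'
  refine ⟨a + a', b + b', fun i => ?_, ?_⟩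
  · rw [Pi.add_apply, h1, h1', Pi.add_apply, Pi.add_apply]
    push_cast
    ring
  · rw [ext_add, ext_add, map_add, map_add]
    exact add_lt_add h2 h2'

lemma not_pos_zero : ¬ Pos Δ ord (0 : Vert Δ → ℤ) := by
  rintro ⟨a, b, h1, h2⟩
  have : a = b := by
    funext i
    have := h1 i
    rw [Pi.zero_apply] at this
    omega
  rw [this] at h2
  exact lt_irrefl _ h2

lemma pos_nsmul {δ : Vert Δ → ℤ} (h : Pos Δ ord δ) (c : ℕ) (hc : c ≠ 0) :
    Pos Δ ord (c • δ) := by
  induction c with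
  | zero => exact absurd rfl hc
  | succ c ih =>
    by_cases h0 : c = 0
    · subst h0
      rw [zero_add, one_smul]
      exact h
    · rw [succ_nsmul]
      exact pos_add (ih h0) h

lemma pos_sum (T : Finset (Vert Δ → ℤ)) (c : (Vert Δ → ℤ) → ℕ) :
    (∀ δ ∈ T, Pos Δ ord δ) → ((∀ δ ∈ T, c δ = 0) ∧ ∑ δ ∈ T, c δ • δ = 0) ∨
      Pos Δ ord (∑ δ ∈ T, c δ • δ) := by
  classical
  induction T using Finset.induction_on with
  | empty => intro _; left; simp
  | insert a T ha ih =>
    intro h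
    have h1 := ih fun δ hδ => h δ (Finset.mem_insert_of_mem hδ)
    rw [Finset.sum_insert ha]
    by_cases hc : c a = 0
    · rw [hc, zero_smul, zero_add]
      rcases h1 with ⟨h1, h2⟩ | h1
      · left
        refine ⟨fun δ hδ => ?_, h2⟩
        rcases Finset.mem_insert.mp hδ with h3 | h3
        · rw [h3, hc]
        · exact h1 δ h3
      · right; exact h1
    · right
      have h2 := pos_nsmul (h a (Finset.mem_insert_self _ _)) (c a) hc
      rcases h1 with ⟨_, h3⟩ | h1
      · rw [h3, add_zero]; exact h2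
      · exact pos_add h2 h1

lemma exists_psi (C : Finset (Vert Δ → ℤ)) :
    ∃ ψ : (Vert Δ → ℤ) →+ ℤ, ∀ δ ∈ C, Pos Δ ord δ → 0 < ψ δ := by
  classical
  rcases gordan (C.filter (Pos Δ ord)) (Vert Δ → ℤ) id with ⟨ψ, hψ⟩ | ⟨c, ⟨i, hi, hci⟩, hc⟩
  · exact ⟨ψ, fun δ hδ hp => hψ δ (Finset.mem_filter.mpr ⟨hδ, hp⟩)⟩
  · exfalso
    rcases pos_sum (ord := ord) (C.filter (Pos Δ ord)) c
      (fun δ hδ => (Finset.mem_filter.mp hδ).2) with ⟨h1, _⟩ | h1
    · exact hci (h1 i hi)
    · have h2 : ∑ δ ∈ C.filter (Pos Δ ord), c δ • δ = 0 := hc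
      rw [h2] at h1
      exact not_pos_zero h1

lemma exists_w (C : Finset ((Vert Δ → ℕ) × (Vert Δ → ℕ))) :
    ∃ w : Vert Δ → ℕ, ∀ q ∈ C, ord.toSyn (ext Δ q.2) < ord.toSyn (ext Δ q.1) →
      wt w q.2 < wt w q.1 := by
  classical
  obtain ⟨ψ, hψ⟩ := exists_psi (ord := ord)
    (C.image (fun q => fun i => (q.1 i : ℤ) - q.2 i) ∪
      Finset.univ.image (fun i : Vert Δ => Pi.single i (1 : ℤ)))
  have hpos : ∀ i : Vert Δ, 0 < ψ (Pi.single i 1) := by
    intro i
    apply hψ
    · exact Finset.mem_union_right _ (Finset.mem_image_of_mem _ (Finset.mem_univ i))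
    · refine ⟨Pi.single i 1, 0, fun j => ?_, ?_⟩
      · by_cases hj : j = i
        · subst hj; simp
        · simp [Pi.single_eq_of_ne hj]
      · have h0 : ext Δ (0 : Vert Δ → ℕ) = 0 := by
          ext j
          by_cases h : ({j} : Finset (Fin n)) ∈ Δ
          · exact ext_apply (0 : Vert Δ → ℕ) ⟨j, h⟩
          · exact ext_apply_not _ h
        rw [h0, map_zero, MonomialOrder.toSyn_lt_iff_ne_zero, Ne,
          MonomialOrder.toSyn_eq_zero_iff]
        intro h
        have h1 := ext_apply (Pi.single i 1 : Vert Δ → ℕ) i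
        rw [h] at h1
        simp at h1
  have hlin : ∀ δ : Vert Δ → ℤ, ψ δ = ∑ i, δ i * ψ (Pi.single i 1) := by
    intro δ
    have h1 : δ = ∑ i, δ i • (Pi.single i 1 : Vert Δ → ℤ) := by
      funext j
      rw [Finset.sum_apply, Finset.sum_eq_single j]
      · simp
      · intro i _ hij
        simp [Pi.single_eq_of_ne (Ne.symm hij)]
      · intro h; exact absurd (Finset.mem_univ _) h
    conv_lhs => rw [h1]
    rw [map_sum]
    refine Finset.sum_congr rfl fun i _ => ?_
    rw [map_zsmul, smul_eq_mul]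
  refine ⟨fun i => (ψ (Pi.single i 1)).toNat, fun q hq hlt => ?_⟩
  have hcast : ∀ i : Vert Δ, (((ψ (Pi.single i 1)).toNat : ℕ) : ℤ) = ψ (Pi.single i 1) :=
    fun i => Int.toNat_of_nonneg (hpos i).le
  have h1 : 0 < ψ (fun i => (q.1 i : ℤ) - q.2 i) := by
    apply hψ
    · exact Finset.mem_union_left _ (Finset.mem_image_of_mem _ hq)
    · exact ⟨q.1, q.2, fun _ => rfl, hlt⟩
  rw [hlin] at h1
  have h2 : ∀ b : Vert Δ → ℕ, ((wt (fun i => (ψ (Pi.single i 1)).toNat) b : ℕ) : ℤ) =
      ∑ i, (b i : ℤ) * ψ (Pi.single i 1) := by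
    intro b
    unfold wt
    push_cast
    refine Finset.sum_congr rfl fun i _ => ?_
    have := hcast i
    rw [← this]
    simp [mul_comm]
  have h3 : ((wt (fun i => (ψ (Pi.single i 1)).toNat) q.2 : ℕ) : ℤ) <
      ((wt (fun i => (ψ (Pi.single i 1)).toNat) q.1 : ℕ) : ℤ) := by
    rw [h2, h2, ← sub_pos, ← Finset.sum_sub_distrib]
    convert h1 using 2
    ring
  exact_mod_cast h3

/-- indicator exponent -/
def ind (F : Finset (Vert Δ)) : Vert Δ → ℕ := fun i => if i ∈ F then 1 else 0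

lemma supp_ind (F : Finset (Vert Δ)) : supp (ind F) = F := by
  ext i
  unfold supp ind
  simp

lemma wt_single (w : Vert Δ → ℕ) (i : Vert Δ) : wt w (Pi.single i 1) = w i := by
  unfold wt
  rw [Finset.sum_eq_single i]
  · simp
  · intro j _ hj
    simp [Pi.single_eq_of_ne hj]
  · intro h; exact absurd (Finset.mem_univ _) h

lemma wt_add (w : Vert Δ → ℕ) (b c : Vert Δ → ℕ) : wt w (b + c) = wt w b + wt w c := by
  unfold wt
  rw [← Finset.sum_add_distrib]
  exact Finset.sum_congr rfl fun i _ => by rw [Pi.add_apply, mul_add]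

lemma deg_add' (b c : Vert Δ → ℕ) : deg (b + c) = deg b + deg c := by
  unfold deg
  rw [← Finset.sum_add_distrib]
  exact Finset.sum_congr rfl fun i _ => by rw [Pi.add_apply]

lemma mon_add' {A : Type} [CommMonoid A] (x : Vert Δ → A) (b c : Vert Δ → ℕ) :
    mon x (b + c) = mon x b * mon x c := by
  unfold mon
  rw [← Finset.prod_mul_distrib]
  exact Finset.prod_congr rfl fun i _ => by rw [Pi.add_apply, pow_add]

/-- WT: Groebner data from a monomial order. -/
theorem wt_main (hdown : ∀ F ∈ Δ, ∀ G : Finset (Fin n), G ⊆ F → G ∈ Δ)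
    (hhom : ∀ f ∈ I, ∀ d : ℕ, homogeneousComponent d f ∈ I)
    (hin : Ideal.span {p : MvPolynomial (Fin n) K | ∃ f ∈ I, f ≠ 0 ∧
          p = MvPolynomial.monomial (ord.degree f) (1 : K)} =
        Ideal.span {p : MvPolynomial (Fin n) K | ∃ S : Finset (Fin n), S ∉ Δ ∧
          p = MvPolynomial.monomial (∑ i ∈ S, Finsupp.single i 1) (1 : K)}) :
    ∃ w : Vert Δ → ℕ, RMod K (gx I Δ) ∧ Grob K (gx I Δ) w (subc Δ) := by
  classical
  have hT : ∀ F : Finset (Vert Δ), ∃ T : Finset (Vert Δ → ℕ), F ∉ subc Δ →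
      (∀ b' ∈ T, supp b' ∈ subc Δ ∧ deg b' = deg (ind F) ∧
        ord.toSyn (ext Δ b') < ord.toSyn (ext Δ (ind F))) ∧
      mon (gx I Δ) (ind F) ∈ Submodule.span K (mon (gx I Δ) '' (T : Set (Vert Δ → ℕ))) := by
    intro F
    by_cases hF : F ∈ subc Δ
    · exact ⟨∅, fun h => absurd hF h⟩
    · obtain ⟨T, hT⟩ := red0 hdown hhom hin (b := ind F) (by rw [supp_ind]; exact hF)
      exact ⟨T, fun _ => hT⟩
  choose T hT using hT
  obtain ⟨w, hw⟩ := exists_w (ord := ord)
    ((Finset.univ.image fun q : Vert Δ × Vert Δ =>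
        ((Pi.single q.1 1 : Vert Δ → ℕ), (Pi.single q.2 1 : Vert Δ → ℕ))) ∪
      (Finset.univ : Finset (Finset (Vert Δ))).biUnion fun F =>
        (T F).image fun b' => (ind F, b'))
  have hw1 : ∀ i j : Vert Δ, ord.toSyn (ext Δ (Pi.single j 1)) < ord.toSyn (ext Δ (Pi.single i 1)) →
      w j < w i := by
    intro i j h
    have := hw (Pi.single i 1, Pi.single j 1) (Finset.mem_union_left _
      (Finset.mem_image.mpr ⟨(i, j), Finset.mem_univ _, rfl⟩)) h
    rwa [wt_single, wt_single] at this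
  have hw2 : ∀ F : Finset (Vert Δ), F ∉ subc Δ → ∀ b' ∈ T F, wt w b' < wt w (ind F) := by
    intro F hF b' hb'
    exact hw (ind F, b') (Finset.mem_union_right _ (Finset.mem_biUnion.mpr
      ⟨F, Finset.mem_univ _, Finset.mem_image_of_mem _ hb'⟩)) ((hT F hF).1 b' hb').2.2
  refine ⟨w, ⟨rmod_hom hhom, gen_top hdown hhom hin⟩, ⟨?_, ?_, ?_, ?_, ?_⟩⟩
  · intro F hF G hG
    unfold subc at hF ⊢
    rw [Finset.mem_filter] at hF ⊢
    exact ⟨Finset.mem_univ _, hdown _ hF.2 _ (Finset.map_subset_map.mpr hG)⟩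
  · intro i
    unfold subc
    rw [Finset.mem_filter, Finset.map_singleton]
    exact ⟨Finset.mem_univ _, i.2⟩
  · intro i j hij
    by_contra hne
    have h1 : ord.toSyn (ext Δ (Pi.single i 1)) ≠ ord.toSyn (ext Δ (Pi.single j 1)) := by
      intro h
      have h2 := ext_inj (ord.toSyn.injective h)
      have h3 := congrFun h2 i
      rw [Pi.single_eq_same, Pi.single_eq_of_ne hne] at h3
      exact one_ne_zero h3
    rcases lt_or_gt_of_ne h1 with h | h
    · have := hw1 _ _ h; omega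
    · have := hw1 _ _ h; omega
  · exact indep hdown hin
  · have key : ∀ (s : ℕ) (b : Vert Δ → ℕ), wt w b = s → supp b ∉ subc Δ →
        mon (gx I Δ) b ∈ Submodule.span K
        {a | ∃ b' : Vert Δ → ℕ, deg b' = deg b ∧ supp b' ∈ subc Δ ∧ wt w b' < wt w b ∧
          a = mon (gx I Δ) b'} := by
      intro s
      induction s using Nat.strong_induction_on with
      | _ s ih =>
        intro b hbs hb
        set F := supp b with hF
        set c : Vert Δ → ℕ := fun i => b i - ind F i with hc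
        have hbc : b = ind F + c := by
          funext i
          rw [Pi.add_apply, hc]
          simp only [ind]
          by_cases hi : i ∈ F
          · rw [if_pos hi]
            have : b i ≠ 0 := by
              rw [hF] at hi
              unfold supp at hi
              exact (Finset.mem_filter.mp hi).2
            omega
          · rw [if_neg hi]
            omega
        obtain ⟨hT1, hT2⟩ := hT F hb
        have h1 : mon (gx I Δ) b ∈ Submodule.span K
            ((fun b' => mon (gx I Δ) (b' + c)) '' (T F : Set (Vert Δ → ℕ))) := by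
          have h2 := Submodule.mem_map_of_mem (f := LinearMap.mulRight K (mon (gx I Δ) c)) hT2
          rw [Submodule.map_span, ← Set.image_comp] at h2
          have h3 : mon (gx I Δ) b = LinearMap.mulRight K (mon (gx I Δ) c)
              (mon (gx I Δ) (ind F)) := by
            conv_lhs => rw [hbc]
            rw [mon_add', LinearMap.mulRight_apply]
          have e : (fun b' => mon (gx I Δ) (b' + c)) =
              (LinearMap.mulRight K (mon (gx I Δ) c)) ∘ mon (gx I Δ) := by
            funext b'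
            rw [mon_add', Function.comp_apply, LinearMap.mulRight_apply]
          rw [h3, e]
          exact h2
        refine (Submodule.span_le.mpr ?_) h1
        rintro _ ⟨b', hb', rfl⟩
        have h4 := hw2 F hb b' hb'
        have h5 : deg (b' + c) = deg b := by
          conv_rhs => rw [hbc]
          rw [deg_add', deg_add', (hT1 b' hb').2.1]
        have h6 : wt w (b' + c) < wt w b := by
          conv_rhs => rw [hbc]
          rw [wt_add, wt_add]
          omega
        by_cases hstd : supp (b' + c) ∈ subc Δ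
        · exact Submodule.subset_span ⟨b' + c, h5, hstd, h6, rfl⟩
        · have h7 := ih (wt w (b' + c)) (hbs ▸ h6) (b' + c) rfl hstd
          refine Submodule.span_mono ?_ h7
          rintro _ ⟨b'', h8, h9, h10, rfl⟩
          exact ⟨b'', h8.trans h5, h9, h10.trans h6, rfl⟩
    intro b hb
    exact key _ b rfl hb

end

/-- WT: Groebner data from a monomial order. -/
theorem wt : S_WT.{v} := by
  intro K _ n Δ I ord hdown hhom _ hin
  exact wt_main hdown hhom hin

end Pool.Agent.Y350.GS
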